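import Mathlib
import Pool.Agent.H525.EX.Stm5

set_option autoImplicit false

/-! Solution of the recurrence of `S_lv4` (project EX of helper525), by helper696. -/

namespace Pool.Agent.H696.EX

open Pool.Agent.H525.EX

/-- the sequence `2 c ^ (N / m)` on the positive multiples of `m` -/
noncomputable def Sv (c : ℝ) (m N : ℤ) : ℝ := if m ∣ N ∧ 0 < N then 2 * c ^ (N / m).toNat else 0

theorem Sv_rec (c : ℝ) {m : ℤ} (hm : 0 < m) (N : ℤ) :
    Sv c m N - c * Sv c m (N - m) = if N = m then 2 * c else 0 := by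
  unfold Sv
  by_cases h : m ∣ N
  · obtain ⟨t, rfl⟩ := h
    have e2 : m * t - m = m * (t - 1) := by ring
    rw [e2, Int.mul_ediv_cancel_left _ hm.ne', Int.mul_ediv_cancel_left _ hm.ne']
    have d1 : m ∣ m * t := ⟨t, rfl⟩
    have d2 : m ∣ m * (t - 1) := ⟨t - 1, rfl⟩
    rcases lt_trichotomy t 1 with ht | ht | ht
    · have n1 : ¬ 0 < m * t := by nlinarith
      have n2 : ¬ 0 < m * (t - 1) := by nlinarith
      have n3 : m * t ≠ m := fun h => n1 (by rw [h]; exact hm)
      rw [if_neg (fun h => n1 h.2), if_neg (fun h => n2 h.2), if_neg n3]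
      ring
    · subst ht
      have n2 : ¬ 0 < m * ((1 : ℤ) - 1) := by simp
      rw [if_pos ⟨d1, by rw [mul_one]; exact hm⟩, if_neg (fun h => n2 h.2), if_pos (mul_one m)]
      simp
    · obtain ⟨n, rfl⟩ : ∃ n : ℕ, t = (n : ℤ) + 2 := ⟨(t - 2).toNat, by omega⟩
      have p1 : 0 < m * ((n : ℤ) + 2) := by positivity
      have p2 : 0 < m * ((n : ℤ) + 2 - 1) := by
        have : (0 : ℤ) < (n : ℤ) + 2 - 1 := by omega
        positivity
      have n3 : m * ((n : ℤ) + 2) ≠ m := by
        intro h
        nlinarith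
      rw [if_pos ⟨d1, p1⟩, if_pos ⟨d2, p2⟩, if_neg n3,
        show ((n : ℤ) + 2).toNat = n + 2 by omega, show ((n : ℤ) + 2 - 1).toNat = n + 1 by omega]
      ring
  · have h2 : ¬ m ∣ N - m := by
      intro h'
      exact h ((dvd_sub_self_right).1 h')
    have h3 : N ≠ m := by
      rintro rfl
      exact h dvd_rfl
    rw [if_neg (fun h' => h h'.1), if_neg (fun h' => h2 h'.1), if_neg h3]
    ring

theorem Sv_nonpos (c : ℝ) {m N : ℤ} (hN : N < m) : Sv c m N = 0 := by
  unfold Sv
  rw [if_neg]
  rintro ⟨h1, h2⟩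
  have := Int.le_of_dvd h2 h1
  omega

/-- uniqueness for the recurrence -/
theorem uni {a b : ℝ} {m : ℤ} (hm : 0 < m) {u : ℤ → ℝ} (h0 : ∀ N < m, u N = 0)
    (hu : ∀ N, u N - a * u (N - m) - b * u (N - m - 2) + a * b * u (N - 2 * m - 2) = 0) (N : ℤ) :
    u N = 0 := by
  have key : ∀ n : ℕ, ∀ N : ℤ, N < n → u N = 0 := by
    intro n
    induction n with
    | zero =>
      intro N hN
      exact h0 N (by push_cast at hN; omega)
    | succ n ih =>
      intro N hN
      push_cast at hN
      have h1 := hu N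
      rw [ih (N - m) (by omega), ih (N - m - 2) (by omega), ih (N - 2 * m - 2) (by omega)] at h1
      linarith
  exact key (N.toNat + 1) N (by push_cast; omega)

/-- the difference of two consecutive levels -/
theorem dif {a b : ℝ} {m : ℤ} (hm : 0 < m) {h : ℤ → ℝ} (h0 : ∀ N < m, h N = 0)
    (hr : ∀ N, h N - a * h (N - m) - b * h (N - m - 2) + a * b * h (N - 2 * m - 2) =
      (if N = m then 2 * a else 0) - (if N = m + 2 then 2 * b else 0)) (N : ℤ) :
    h N = Sv a m N - Sv b (m + 2) N := by
  have hz := uni (a := a) (b := b) hm (u := fun N => h N - (Sv a m N - Sv b (m + 2) N)) ?_ ?_ N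
  · linarith
  · intro N hN
    rw [h0 N hN, Sv_nonpos a hN, Sv_nonpos b (by omega : N < m + 2)]
    ring
  · intro N
    have r0 := hr N
    have r1 := Sv_rec a hm N
    have r2 := Sv_rec a hm (N - m - 2)
    have r3 := Sv_rec b (by omega : 0 < m + 2) N
    have r4 := Sv_rec b (by omega : 0 < m + 2) (N - m)
    rw [show N - m - 2 - m = N - 2 * m - 2 by ring] at r2
    rw [show N - (m + 2) = N - m - 2 by ring] at r3
    rw [show N - m - (m + 2) = N - 2 * m - 2 by ring] at r4
    have e : (if N - m - 2 = m then 2 * a else 0) * b = a * (if N - m = m + 2 then 2 * b else 0) := by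
      by_cases h2 : N - m - 2 = m
      · rw [if_pos h2, if_pos (by omega)]
        ring
      · rw [if_neg h2, if_neg (by omega)]
        ring
    linear_combination r0 - r1 + b * r2 + r3 - a * r4 + e

theorem t_lv4 : Pool.Agent.H525.EX.S_lv4 := by
  intro ε g D hε h0 hr N
  have hee : ε * ε = 1 := by
    rcases hε with h | h <;> rw [h] <;> norm_num
  have hdif : ∀ k : ℕ, D k N - D (k + 1) N =
      Sv (ε ^ k * g) (4 * k + 1) N - Sv (ε ^ (k + 1) * g) (4 * k + 1 + 2) N := by
    intro k
    refine dif (h := fun N => D k N - D (k + 1) N) (by positivity) ?_ ?_ (N : ℤ)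
    · intro M hM
      rw [h0 k M hM, h0 (k + 1) M (by push_cast; linarith), sub_zero]
    · intro M
      have h1 := hr k M
      have h2 : ε ^ k * g * (ε ^ (k + 1) * g) = ε * g ^ 2 := by
        have : ε ^ k * ε ^ k = 1 := by rw [← mul_pow, hee, one_pow]
        calc ε ^ k * g * (ε ^ (k + 1) * g) = (ε ^ k * ε ^ k) * (ε * g ^ 2) := by ring
          _ = _ := by rw [this, one_mul]
      rw [h2]
      rw [show (4 * (k : ℤ) + 1 + 2) = 4 * k + 3 by ring]
      rw [mul_assoc 2 (ε ^ k) g, mul_assoc 2 (ε ^ (k + 1)) g] at h1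
      exact h1
  have hit : ∀ S : ℕ, D 0 N = ∑ k ∈ Finset.range S, (D k N - D (k + 1) N) + D S N := by
    intro S
    induction S with
    | zero => simp
    | succ S ih =>
      rw [Finset.sum_range_succ, ih]
      ring
  rw [hit (N + 1), h0 (N + 1) N (by push_cast; linarith), add_zero,
    Finset.sum_congr rfl (fun k _ => hdif k), Finset.sum_sub_distrib]
  unfold El
  rw [mul_sub]
  -- the values of `Sv` at natural numbers
  have hval : ∀ (c : ℝ) (d : ℕ), 0 < d → Sv c d N = if d ∣ N ∧ 0 < N then 2 * c ^ (N / d) else 0 := by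
    intro c d hd
    unfold Sv
    by_cases h : d ∣ N ∧ 0 < N
    · rw [if_pos h, if_pos ⟨by exact_mod_cast h.1, by exact_mod_cast h.2⟩]
      rw [show ((N : ℤ) / (d : ℤ)).toNat = N / d by
        rw [← Int.natCast_div]
        exact Int.toNat_natCast _]
    · rw [if_neg h, if_neg]
      rintro ⟨h1, h2⟩
      exact h ⟨by exact_mod_cast h1, by exact_mod_cast h2⟩
  congr 1
  · have e1 : ∀ k : ℕ, Sv (ε ^ k * g) (4 * k + 1) N =
        if (4 * k + 1) ∣ N ∧ 0 < N then 2 * (ε ^ k * g) ^ (N / (4 * k + 1)) else 0 := by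
      intro k
      have := hval (ε ^ k * g) (4 * k + 1) (by omega)
      push_cast at this
      exact this
    rw [Finset.sum_congr rfl (fun k _ => e1 k), ← Finset.sum_filter, Finset.mul_sum]
    refine Finset.sum_bij' (fun k _ => 4 * k + 1) (fun d _ => (d - 1) / 4) ?_ ?_ ?_ ?_ ?_
    · intro k hk
      rw [Finset.mem_filter] at hk
      rw [Finset.mem_filter, Nat.mem_divisors]
      exact ⟨⟨hk.2.1, by omega⟩, by omega⟩
    · intro d hd
      rw [Finset.mem_filter, Nat.mem_divisors] at hd
      have hle := Nat.le_of_dvd (Nat.pos_of_ne_zero hd.1.2) hd.1.1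
      rw [Finset.mem_filter, Finset.mem_range, show 4 * ((d - 1) / 4) + 1 = d by omega]
      exact ⟨by omega, hd.1.1, by omega⟩
    · intro k hk
      omega
    · intro d hd
      rw [Finset.mem_filter] at hd
      omega
    · intro k hk
      rw [show (4 * k + 1 - 1) / 4 = k by omega]
  · have e1 : ∀ k : ℕ, Sv (ε ^ (k + 1) * g) (4 * k + 1 + 2) N =
        if (4 * k + 3) ∣ N ∧ 0 < N then 2 * (ε ^ (k + 1) * g) ^ (N / (4 * k + 3)) else 0 := by
      intro k
      have := hval (ε ^ (k + 1) * g) (4 * k + 3) (by omega)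
      push_cast at this
      rw [show (4 * (k : ℤ) + 1 + 2) = 4 * k + 3 by ring]
      exact this
    rw [Finset.sum_congr rfl (fun k _ => e1 k), ← Finset.sum_filter, Finset.mul_sum]
    refine Finset.sum_bij' (fun k _ => 4 * k + 3) (fun d _ => (d - 3) / 4) ?_ ?_ ?_ ?_ ?_
    · intro k hk
      rw [Finset.mem_filter] at hk
      rw [Finset.mem_filter, Nat.mem_divisors]
      exact ⟨⟨hk.2.1, by omega⟩, by omega⟩
    · intro d hd
      rw [Finset.mem_filter, Nat.mem_divisors] at hd
      have hle := Nat.le_of_dvd (Nat.pos_of_ne_zero hd.1.2) hd.1.1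
      rw [Finset.mem_filter, Finset.mem_range, show 4 * ((d - 3) / 4) + 3 = d by omega]
      exact ⟨by omega, hd.1.1, by omega⟩
    · intro k hk
      omega
    · intro d hd
      rw [Finset.mem_filter] at hd
      omega
    · intro k hk
      rw [show (4 * k + 3 + 1) / 4 = k + 1 by omega]

end Pool.Agent.H696.EX
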